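import Pool.Agent.V5helper51.SP.LOB0

set_option autoImplicit false

open Finset MeasureTheory Filter Topology

namespace Pool.Agent.V5helper51.SP

open Pool.Agent.V5helper51.MT (e g a G cube φ blk S_CM a_bd)
open Pool.Agent.V5helper50.SP

theorem t_LOB (hCM : S_CM) (hMT : S_MTL) (hGRW : S_GRW) : S_LOB := by
  classical
  intro k hk
  have hB1 : 1 ≤ 4 * k * (2 * k + 1) ^ k := by
    have : 0 < 4 * k * (2 * k + 1) ^ k := by positivity
    omega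
  set b : ℝ := ((4 * k * (2 * k + 1) ^ k : ℕ) : ℝ) with hb
  have hb1 : 1 ≤ b := by rw [hb]; exact_mod_cast hB1
  have hb0 : 0 < b := by linarith
  set K : ℝ := 4 * b * 2 ^ k with hK
  have h2k1 : (1 : ℝ) ≤ 2 ^ k := one_le_pow₀ (by norm_num)
  have hK1 : 1 ≤ K := by rw [hK]; nlinarith
  have hK0 : 0 < K := by linarith
  have h2k : (1 : ℝ) < 2 ^ k := one_lt_pow₀ (by norm_num) (by omega)
  have hk0 : (0 : ℝ) < k := by positivity
  have hk2 : (2 : ℝ) ≤ k := by exact_mod_cast hk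
  set c₁ : ℝ := 1 / (2 ^ (2 * k) * (12 * k * K)) with hc₁
  have hc₁0 : 0 < c₁ := by positivity
  refine ⟨c₁ / (2 * K ^ 2), by positivity, ?_⟩
  intro q hq α σ hσ0 hσ1 hPair hSup ρ
  obtain ⟨x₀, -, ha⟩ := a_bd k q hk α
  obtain ⟨X₀, hX₀1, hX₀⟩ := hMT k q (ρ (Fin.last (2 * k))) hk hq α
  obtain ⟨C, hC, hPair⟩ := hPair
  obtain ⟨m₂, hm₂⟩ := hSup (ρ (Fin.last (2 * k))) (16 * (4 * k * (2 * k + 1) ^ k)) (by omega)
  have hfin := (hGRW k q hk hq α).2.2.1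
  have hq0 : (0 : ℝ) < q := by exact_mod_cast (by omega : 0 < q)
  have hq1 : (1 : ℝ) ≤ q := by exact_mod_cast hq
  set C₂ : ℝ := 40 * (16 * b) * (C * (2 * k + 2) ^ (k + 1)) with hC₂
  have hC₂0 : 0 < C₂ := by positivity
  have hlim : Tendsto (fun m : ℕ => (1 : ℝ) / ((2 : ℝ) ^ (σ / 2)) ^ m) atTop (𝓝 0) := by
    have h1 : (1 : ℝ) < (2 : ℝ) ^ (σ / 2) := Real.one_lt_rpow (by norm_num) (by linarith)
    have := tendsto_pow_const_div_const_pow_of_one_lt 0 h1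
    simpa using this
  have hε : 0 < c₁ / (2 * (q : ℝ) ^ (2 * k) * C₂) := by positivity
  obtain ⟨m₄, hm₄⟩ := eventually_atTop.1 (hlim.eventually_le_const hε)
  set r : ℕ := ρ (Fin.last (2 * k)) with hr
  set Q : ℕ := x₀ + 2 * q + X₀ + q * X₀ + r ^ k with hQ
  set m₃ : ℕ := m₂ + Q + m₄ with hm₃
  obtain ⟨n₀, hn₀⟩ := exists_nat_ge (4 * b * ((2 : ℝ) ^ k) ^ m₃)
  refine ⟨n₀, fun n hn hdvd => ?_⟩
  have hnn : 4 * b * ((2 : ℝ) ^ k) ^ m₃ ≤ n := hn₀.trans (by exact_mod_cast hn)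
  have hpm : (1 : ℝ) ≤ ((2 : ℝ) ^ k) ^ m₃ := one_le_pow₀ h2k1
  have hdiv : ((2 : ℝ) ^ k) ^ m₃ ≤ n / (4 * b) := by
    rw [le_div_iff₀ (by positivity)]
    linarith
  obtain ⟨m, hm1, hm2⟩ := exists_nat_pow_near (hpm.trans hdiv) h2k
  have hmm : m₃ ≤ m := by
    by_contra hcon
    have h1 : m + 1 ≤ m₃ := by omega
    have h2 : ((2 : ℝ) ^ k) ^ (m + 1) ≤ ((2 : ℝ) ^ k) ^ m₃ := pow_le_pow_right₀ h2k1 h1
    linarith
  have hPQ : Q ≤ 2 ^ m := by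
    have := (Nat.lt_two_pow_self (n := m))
    omega
  set P : ℕ := 2 ^ m with hP
  have hPr : (P : ℝ) = 2 ^ m := by rw [hP]; push_cast; rfl
  have hPk : ((2 : ℝ) ^ k) ^ m = (P : ℝ) ^ k := by rw [hPr, ← pow_mul, ← pow_mul, mul_comm]
  have hP0 : 1 ≤ P := by rw [hP]; exact Nat.one_le_two_pow
  have hPr1 : (1 : ℝ) ≤ P := by exact_mod_cast hP0
  have hPr0 : (0 : ℝ) < P := by linarith
  have hn1 : 4 * b * (P : ℝ) ^ k ≤ n := by
    rw [le_div_iff₀ (by positivity), hPk] at hm1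
    linarith
  have hn2 : (n : ℝ) ≤ 4 * b * (2 * (P : ℝ)) ^ k := by
    rw [div_lt_iff₀ (by positivity), pow_succ, hPk] at hm2
    rw [mul_pow]
    linarith
  have hn0' : (0 : ℝ) < n := lt_of_lt_of_le (by positivity) hn1
  set X : ℕ := 16 * (4 * k * (2 * k + 1) ^ k) * P with hX
  have hXr : (X : ℝ) = 16 * b * P := by rw [hX, hb]; push_cast; ring
  have hPX : P ≤ X := by
    rw [hX]
    nlinarith
  have hP3 : (q : ℝ) * X₀ + (r : ℝ) ^ k ≤ 2 * b * (P : ℝ) ^ k := by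
    have h1 : ((q * X₀ + r ^ k : ℕ) : ℝ) ≤ P := by
      exact_mod_cast (by omega : q * X₀ + r ^ k ≤ P)
    push_cast at h1
    have h2 : (P : ℝ) ≤ (P : ℝ) ^ k := by
      calc (P : ℝ) = (P : ℝ) ^ 1 := (pow_one _).symm
        _ ≤ _ := pow_le_pow_right₀ hPr1 (by omega)
    have h3 : (0 : ℝ) ≤ (P : ℝ) ^ k := by positivity
    nlinarith
  -- the size of `n`
  have hnK : (n : ℝ) ≤ K * (P : ℝ) ^ k := by
    rw [hK]
    rw [mul_pow] at hn2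
    linarith
  have hn0 : (0 : ℝ) ≤ n := Nat.cast_nonneg n
  have hKk : K ≤ K ^ k := by
    calc K = K ^ 1 := (pow_one _).symm
      _ ≤ _ := pow_le_pow_right₀ hK1 (by omega)
  have hnKP : (n : ℝ) ≤ (K * P) ^ k := by
    rw [mul_pow]
    refine hnK.trans ?_
    gcongr
  have hroot : (n : ℝ) ^ (1 / (k : ℝ)) ≤ K * P := by
    calc (n : ℝ) ^ (1 / (k : ℝ)) ≤ ((K * P) ^ k) ^ (1 / (k : ℝ)) :=
          Real.rpow_le_rpow hn0 hnKP (by positivity)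
      _ = K * P := by
          rw [one_div, Real.pow_rpow_inv_natCast (by positivity) (by omega)]
  have hn3 : (n : ℝ) ^ (1 + 1 / (k : ℝ)) ≤ K ^ 2 * (P : ℝ) ^ (k + 1) := by
    rw [Real.rpow_add_of_nonneg hn0 (by norm_num) (by positivity), Real.rpow_one]
    calc (n : ℝ) * (n : ℝ) ^ (1 / (k : ℝ)) ≤ (K * (P : ℝ) ^ k) * (K * P) := by gcongr
      _ = _ := by ring
  have hn4 : (n : ℝ) ^ (((k : ℝ) - 1) / k) ≤ K * (P : ℝ) ^ (k - 1) := by
    have he : 0 ≤ ((k : ℝ) - 1) / k := div_nonneg (by linarith) hk0.le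
    have he1 : ((k : ℝ) - 1) / k ≤ 1 := by rw [div_le_one hk0]; linarith
    calc (n : ℝ) ^ (((k : ℝ) - 1) / k) ≤ (K * (P : ℝ) ^ k) ^ (((k : ℝ) - 1) / k) :=
          Real.rpow_le_rpow hn0 hnK he
      _ = K ^ (((k : ℝ) - 1) / k) * ((P : ℝ) ^ k) ^ (((k : ℝ) - 1) / k) :=
          Real.mul_rpow hK0.le (by positivity)
      _ ≤ K * (P : ℝ) ^ (k - 1) := by
          have h1 : K ^ (((k : ℝ) - 1) / k) ≤ K := by
            calc K ^ (((k : ℝ) - 1) / k) ≤ K ^ (1 : ℝ) := Real.rpow_le_rpow_of_exponent_le hK1 he1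
              _ = K := Real.rpow_one _
          have h2 : ((P : ℝ) ^ k) ^ (((k : ℝ) - 1) / k) = (P : ℝ) ^ (k - 1) := by
            rw [← Real.rpow_natCast (P : ℝ) k, ← Real.rpow_mul hPr0.le, ← Real.rpow_natCast]
            congr 1
            rw [Nat.cast_sub (by omega)]
            push_cast
            field_simp
          rw [h2]
          gcongr
  set μ : ℝ := 1 / (12 * k * (n : ℝ) ^ (((k : ℝ) - 1) / k)) with hμ
  have hμ0 : 0 < μ := by positivity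
  have hXX : X₀ ≤ X := by omega
  have hint : ∀ w : ℝ, (X₀ : ℝ) ≤ w → (q : ℝ) * w ≤ n → w ≤ (X : ℝ) ^ k / 2 →
      μ ≤ ∫ u in (0 : ℝ)..X, φ (G k q r α u - w) := by
    intro w hw1 hw2 hw3
    have hw0 : 0 ≤ w := le_trans (Nat.cast_nonneg _) hw1
    have h1 : w ≤ ((q : ℝ) * X) ^ k / (2 * q) := by
      refine hw3.trans ?_
      rw [mul_pow, div_le_div_iff₀ (by norm_num) (by positivity)]
      have h2 : (q : ℝ) ≤ (q : ℝ) ^ k := by
        calc (q : ℝ) = (q : ℝ) ^ 1 := (pow_one _).symm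
          _ ≤ _ := pow_le_pow_right₀ hq1 (by omega)
      have h3 : (0 : ℝ) ≤ (X : ℝ) ^ k := by positivity
      nlinarith
    refine le_trans ?_ (hX₀ X hXX w hw1 h1)
    have hX₀r : (1 : ℝ) ≤ X₀ := by exact_mod_cast hX₀1
    have hpos : 0 < w := by linarith
    have h4 : ((q : ℝ) * w) ^ (((k : ℝ) - 1) / k) ≤ (n : ℝ) ^ (((k : ℝ) - 1) / k) :=
      Real.rpow_le_rpow (by positivity) hw2 (div_nonneg (by linarith) hk0.le)
    have h5 : 0 < ((q : ℝ) * w) ^ (((k : ℝ) - 1) / k) := by positivity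
    rw [hμ]
    gcongr
  -- the pairs
  set Y : ℕ := (2 * k + 2) * P with hY
  have hbox : MT.box k P ⊆ Fintype.piFinset fun _ : Fin k => range Y := by
    intro v hv
    unfold MT.box at hv
    rw [Fintype.mem_piFinset] at hv ⊢
    intro i
    have h1 := hv i
    unfold blk at h1
    rw [mem_Icc] at h1
    rw [mem_range, hY]
    have hi := i.2
    calc v i ≤ (2 * (i : ℕ) + 3) * P := h1.2
      _ ≤ (2 * k + 1) * P := Nat.mul_le_mul_right _ (by omega)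
      _ < (2 * k + 2) * P := Nat.mul_lt_mul_of_pos_right (by omega) (by omega)
  have hE : (((MT.box k P ×ˢ MT.box k P).filter fun p : (Fin k → ℕ) × (Fin k → ℕ) =>
      ∑ i, a k q α (p.1 i) = ∑ i, a k q α (p.2 i)).card : ℝ) ≤ C * (Y : ℝ) ^ ((k : ℝ) + σ / 2) := by
    refine le_trans ?_ (hPair Y (by rw [hY]; nlinarith))
    unfold cnt
    refine Nat.cast_le.2 (card_le_card fun p hp => ?_)
    rw [mem_filter, mem_product] at hp ⊢
    exact ⟨⟨hbox hp.1.1, hbox hp.1.2⟩, hp.2⟩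
  obtain ⟨S, hS1, hS2⟩ := scale hCM k q hk hq α ρ σ hσ0 hσ1 x₀ ha X₀ P X n μ hμ0 hint hX
    (C * (Y : ℝ) ^ ((k : ℝ) + σ / 2)) hE (hm₂ m (by omega) X hX)
    (by omega) (by omega) hXX hP3 hn1 hn2 hdvd
  have hSR : (S.card : ℝ) ≤ R k q (2 * k + 1) α ρ n := by
    unfold R
    rw [← Set.ncard_coe_finset S]
    refine Nat.cast_le.2 (Set.ncard_le_ncard ?_ (hfin _ _ _))
    intro x hx
    have := hS2 x hx
    exact ⟨fun i => (this.1 i).2, this.2⟩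
  refine le_trans ?_ hSR
  refine le_trans ?_ hS1
  -- the main term
  have hk1 : (P : ℝ) ^ (k + 1) * (P : ℝ) ^ (k - 1) = (P : ℝ) ^ (2 * k) := by
    rw [← pow_add]; congr 1; omega
  have hmain : c₁ / (q : ℝ) ^ (2 * k) * (P : ℝ) ^ (k + 1) ≤ ((P : ℝ) / (2 * q)) ^ (2 * k) * μ := by
    have h1 : 1 / (12 * k * (K * (P : ℝ) ^ (k - 1))) ≤ μ := by
      rw [hμ]
      gcongr
    calc c₁ / (q : ℝ) ^ (2 * k) * (P : ℝ) ^ (k + 1)
        = ((P : ℝ) / (2 * q)) ^ (2 * k) * (1 / (12 * k * (K * (P : ℝ) ^ (k - 1)))) := by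
          rw [hc₁, div_pow, mul_pow, ← hk1]
          field_simp
      _ ≤ _ := by gcongr
  -- the error term
  have herr : 40 * (X : ℝ) ^ (1 - σ) * (C * (Y : ℝ) ^ ((k : ℝ) + σ / 2)) ≤
      c₁ / (2 * (q : ℝ) ^ (2 * k)) * (P : ℝ) ^ (k + 1) := by
    have h1 : (X : ℝ) ^ (1 - σ) ≤ 16 * b * (P : ℝ) ^ (1 - σ) := by
      rw [hXr, Real.mul_rpow (by positivity) (by positivity)]
      have h2 : (16 * b) ^ (1 - σ) ≤ 16 * b := by
        calc (16 * b) ^ (1 - σ) ≤ (16 * b) ^ (1 : ℝ) :=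
              Real.rpow_le_rpow_of_exponent_le (by linarith) (by linarith)
          _ = _ := Real.rpow_one _
      gcongr
    have h2 : (Y : ℝ) ^ ((k : ℝ) + σ / 2) ≤ (2 * k + 2) ^ (k + 1) * (P : ℝ) ^ ((k : ℝ) + σ / 2) := by
      have hYr : (Y : ℝ) = (2 * k + 2) * P := by rw [hY]; push_cast; ring
      rw [hYr, Real.mul_rpow (by positivity) (by positivity)]
      have h3 : (2 * (k : ℝ) + 2) ^ ((k : ℝ) + σ / 2) ≤ (2 * k + 2) ^ (k + 1) := by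
        calc (2 * (k : ℝ) + 2) ^ ((k : ℝ) + σ / 2) ≤ (2 * (k : ℝ) + 2) ^ (((k + 1 : ℕ) : ℝ)) :=
              Real.rpow_le_rpow_of_exponent_le (by linarith) (by push_cast; linarith)
          _ = _ := Real.rpow_natCast _ _
      gcongr
    have h3 : (P : ℝ) ^ (1 - σ) * (P : ℝ) ^ ((k : ℝ) + σ / 2) =
        (P : ℝ) ^ (k + 1) * (1 / ((2 : ℝ) ^ (σ / 2)) ^ m) := by
      rw [← Real.rpow_add hPr0]
      have h4 : (1 - σ) + ((k : ℝ) + σ / 2) = ((k + 1 : ℕ) : ℝ) - σ / 2 := by push_cast; ring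
      rw [h4, Real.rpow_sub hPr0, Real.rpow_natCast, div_eq_mul_one_div]
      congr 2
      rw [hPr, ← Real.rpow_natCast, ← Real.rpow_natCast, ← Real.rpow_mul (by norm_num),
        ← Real.rpow_mul (by norm_num), mul_comm]
    have h4 := hm₄ m (by omega)
    calc 40 * (X : ℝ) ^ (1 - σ) * (C * (Y : ℝ) ^ ((k : ℝ) + σ / 2))
        ≤ 40 * (16 * b * (P : ℝ) ^ (1 - σ)) * (C * ((2 * k + 2) ^ (k + 1) * (P : ℝ) ^ ((k : ℝ) + σ / 2))) := by
          gcongr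
      _ = C₂ * ((P : ℝ) ^ (1 - σ) * (P : ℝ) ^ ((k : ℝ) + σ / 2)) := by rw [hC₂]; ring
      _ = C₂ * ((P : ℝ) ^ (k + 1) * (1 / ((2 : ℝ) ^ (σ / 2)) ^ m)) := by rw [h3]
      _ ≤ C₂ * ((P : ℝ) ^ (k + 1) * (c₁ / (2 * (q : ℝ) ^ (2 * k) * C₂))) := by gcongr
      _ = c₁ / (2 * (q : ℝ) ^ (2 * k)) * (P : ℝ) ^ (k + 1) := by field_simp
  have hsplit : c₁ / (q : ℝ) ^ (2 * k) * (P : ℝ) ^ (k + 1) =
      c₁ / (2 * (q : ℝ) ^ (2 * k)) * (P : ℝ) ^ (k + 1) + c₁ / (2 * (q : ℝ) ^ (2 * k)) * (P : ℝ) ^ (k + 1) := by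
    field_simp
    ring
  calc c₁ / (2 * K ^ 2) / (q : ℝ) ^ (2 * k) * (n : ℝ) ^ (1 + 1 / (k : ℝ))
      ≤ c₁ / (2 * K ^ 2) / (q : ℝ) ^ (2 * k) * (K ^ 2 * (P : ℝ) ^ (k + 1)) := by gcongr
    _ = c₁ / (2 * (q : ℝ) ^ (2 * k)) * (P : ℝ) ^ (k + 1) := by field_simp
    _ ≤ _ := by linarith

end Pool.Agent.V5helper51.SP
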